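import Mathlib

set_option autoImplicit false

/-!
# Taylor series of entire functions of several variables
-/

namespace Pool.Agent.Helper734.Tay

/-! ### jP -/

/-- products of absolutely convergent series -/
theorem prod_hasSum {n : ℕ} (f : Fin n → ℕ → ℂ) (hf : ∀ i, Summable (fun k => ‖f i k‖)) :
    Summable (fun α : Fin n → ℕ => ‖∏ i, f i (α i)‖) ∧
      HasSum (fun α : Fin n → ℕ => ∏ i, f i (α i)) (∏ i, ∑' k, f i k) := by
  induction n with
  | zero =>
    constructor
    · exact Summable.of_finite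
    · have h := hasSum_fintype (fun α : Fin 0 → ℕ => ∏ i, f i (α i))
      simpa using h
  | succ n ih =>
    obtain ⟨h1, h2⟩ := ih (fun i => f i.succ) (fun i => hf i.succ)
    have hs : Summable (fun x : ℕ × (Fin n → ℕ) => ‖f 0 x.1 * ∏ i, f (Fin.succ i) (x.2 i)‖) := by
      have h3 := (hf 0).mul_of_nonneg h1 (fun _ => norm_nonneg _) (fun _ => norm_nonneg _)
      refine h3.congr fun x => ?_
      rw [norm_mul]
    constructor
    · rw [← (Fin.consEquiv (fun _ : Fin (n + 1) => ℕ)).summable_iff]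
      refine hs.congr fun x => ?_
      show _ = ‖∏ i, f i ((Fin.consEquiv (fun _ : Fin (n + 1) => ℕ)) x i)‖
      rw [Fin.prod_univ_succ]
      rfl
    · rw [← (Fin.consEquiv (fun _ : Fin (n + 1) => ℕ)).hasSum_iff, Fin.prod_univ_succ]
      have h4 : HasSum (f 0) (∑' k, f 0 k) := (hf 0).of_norm.hasSum
      have h5 := h4.mul h2 hs.of_norm
      have h6 : ((fun α : Fin (n + 1) → ℕ => ∏ i, f i (α i)) ∘
          (Fin.consEquiv (fun _ : Fin (n + 1) => ℕ))) =
          fun x : ℕ × (Fin n → ℕ) => f 0 x.1 * ∏ i, f (Fin.succ i) (x.2 i) := by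
        funext x
        show ∏ i, f i ((Fin.consEquiv (fun _ : Fin (n + 1) => ℕ)) x i) = _
        rw [Fin.prod_univ_succ]
        rfl
      rw [h6]
      exact h5

theorem expo_hasSum {n : ℕ} (z ζ : Fin n → ℂ) :
    HasSum (fun α : Fin n → ℕ => (∏ i, z i ^ α i / ((α i).factorial : ℂ)) * ∏ i, ζ i ^ α i)
      (Complex.exp (∑ j, ζ j * z j)) := by
  have h1 := prod_hasSum (fun i k => (z i * ζ i) ^ k / (k.factorial : ℂ)) (fun i => by
    exact NormedSpace.norm_expSeries_div_summable (z i * ζ i))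
  have h2 : ∏ i, ∑' k, (z i * ζ i) ^ k / (k.factorial : ℂ) = Complex.exp (∑ j, ζ j * z j) := by
    rw [Complex.exp_sum]
    refine Finset.prod_congr rfl fun i _ => ?_
    rw [Complex.exp_eq_exp_ℂ, NormedSpace.exp_eq_tsum_div, mul_comm (ζ i)]
  rw [← h2]
  have h3 : (fun α : Fin n → ℕ => (∏ i, z i ^ α i / ((α i).factorial : ℂ)) * ∏ i, ζ i ^ α i) =
      fun α : Fin n → ℕ => ∏ i, (z i * ζ i) ^ α i / ((α i).factorial : ℂ) := by
    funext α
    rw [← Finset.prod_mul_distrib]
    refine Finset.prod_congr rfl fun i _ => ?_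
    rw [mul_pow]
    ring
  rw [h3]
  exact h1.2

/-- the geometric series in several variables -/
theorem geom_summable (n : ℕ) (r : ℝ) (h0 : 0 ≤ r) (h1 : r < 1) :
    Summable (fun α : Fin n → ℕ => r ^ (∑ i, α i)) := by
  have h := (prod_hasSum (n := n) (fun _ k => ((r : ℂ)) ^ k) (fun _ => by
    have h2 := summable_geometric_of_lt_one h0 h1
    refine h2.congr fun k => ?_
    rw [norm_pow, Complex.norm_real, Real.norm_of_nonneg h0])).1
  refine h.congr fun α => ?_
  rw [Finset.prod_pow_eq_pow_sum, norm_pow, Complex.norm_real, Real.norm_of_nonneg h0]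

/-! ### jC -/

/-- Cauchy estimate -/
theorem jC_fd_bound {V : Type*} [NormedAddCommGroup V] [NormedSpace ℂ V] (f : V → ℂ)
    (hf : Differentiable ℂ f) (w : V) (M : ℝ) (hM : ∀ y ∈ Metric.closedBall w 1, ‖f y‖ ≤ M) :
    ‖fderiv ℂ f w‖ ≤ M := by
  have hM0 : 0 ≤ M := (norm_nonneg _).trans (hM w (Metric.mem_closedBall_self zero_le_one))
  refine ContinuousLinearMap.opNorm_le_bound _ hM0 fun v => ?_
  by_cases hv : v = 0
  · rw [hv, map_zero, norm_zero, norm_zero, mul_zero]
  have hv' : 0 < ‖v‖ := norm_pos_iff.mpr hv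
  have h1 : HasDerivAt (fun t : ℂ => f (w + t • v)) (fderiv ℂ f w v) 0 := by
    have h2 : HasFDerivAt f (fderiv ℂ f w) (w + (0 : ℂ) • v) := by
      rw [zero_smul, add_zero]
      exact (hf w).hasFDerivAt
    have h3 : HasDerivAt (fun t : ℂ => w + t • v) v 0 := by
      have := ((hasDerivAt_id (0 : ℂ)).smul_const v).const_add w
      simpa using this
    exact h2.comp_hasDerivAt 0 h3
  have h4 : Differentiable ℂ (fun t : ℂ => f (w + t • v)) := hf.comp (by fun_prop)
  have h5 := Complex.norm_deriv_le_of_forall_mem_sphere_norm_le (c := 0) (R := ‖v‖⁻¹) (C := M)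
    (inv_pos.mpr hv') h4.diffContOnCl (by
      intro t ht
      apply hM
      rw [Metric.mem_closedBall, dist_eq_norm, add_sub_cancel_left, norm_smul]
      rw [mem_sphere_zero_iff_norm] at ht
      rw [ht, inv_mul_cancel₀ hv'.ne'])
  rw [h1.deriv, div_inv_eq_mul] at h5
  exact h5

/-- the weight -/
noncomputable def jC_wt (k : ℕ) (θ : ℝ) : ℂ :=
  deriv (circleMap 0 1) θ * ((1 / (circleMap 0 1 θ - 0)) ^ k * (circleMap 0 1 θ - 0)⁻¹)

theorem jC_wt_cont (k : ℕ) : Continuous (jC_wt k) := by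
  have hne : ∀ θ : ℝ, circleMap (0 : ℂ) 1 θ - 0 ≠ 0 := by
    intro θ
    rw [sub_zero]
    exact circleMap_ne_center one_ne_zero
  unfold jC_wt
  simp only [deriv_circleMap]
  have h1 : Continuous (circleMap (0 : ℂ) 1) := continuous_circleMap 0 1
  refine (h1.mul continuous_const).mul ((Continuous.pow ?_ k).mul ?_)
  · exact continuous_const.div (h1.sub continuous_const) hne
  · exact (h1.sub continuous_const).inv₀ hne

theorem jC_iter_eq (g : ℂ → ℂ) (hg : Differentiable ℂ g) (k : ℕ) :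
    iteratedDeriv k g 0 = (k.factorial : ℂ) * ((2 * Real.pi * Complex.I : ℂ)⁻¹ *
      ∫ θ in (0 : ℝ)..2 * Real.pi, jC_wt k θ * g (circleMap 0 1 θ)) := by
  have h1 := (hg.hasFPowerSeriesOnBall 0 (R := 1) one_pos).factorial_smul 1 k
  rw [iteratedDeriv_eq_iteratedFDeriv, ← h1, cauchyPowerSeries_apply, nsmul_eq_mul, smul_eq_mul]
  congr 2
  unfold circleIntegral jC_wt
  refine intervalIntegral.integral_congr fun θ _ => ?_
  simp only [smul_eq_mul, NNReal.coe_one]
  ring

/-- the Taylor coefficients in the first variable are entire in the other variables -/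
theorem coef_diff {n : ℕ} (f : (Fin (n + 1) → ℂ) → ℂ) (hf : Differentiable ℂ f) (k : ℕ) :
    Differentiable ℂ (fun z : Fin n → ℂ =>
      iteratedDeriv k (fun s : ℂ => f (Fin.cons s z : Fin (n + 1) → ℂ)) 0) := by
  let ι : (Fin n → ℂ) →L[ℂ] (Fin (n + 1) → ℂ) := LinearMap.toContinuousLinearMap
    { toFun := fun z => (Fin.cons 0 z : Fin (n + 1) → ℂ)
      map_add' := fun a b => by
        funext i
        refine Fin.cases ?_ (fun j => ?_) i
        · simp
        · simp
      map_smul' := fun c a => by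
        funext i
        refine Fin.cases ?_ (fun j => ?_) i
        · simp
        · simp }
  have hι : ∀ z : Fin n → ℂ, ι z = (Fin.cons 0 z : Fin (n + 1) → ℂ) := fun z => rfl
  have hcons : ∀ (s : ℂ) (z : Fin n → ℂ), (Fin.cons s z : Fin (n + 1) → ℂ) =
      (Fin.cons s 0 : Fin (n + 1) → ℂ) + ι z := by
    intro s z
    rw [hι]
    funext i
    refine Fin.cases ?_ (fun j => ?_) i
    · simp
    · simp
  have hcont : Continuous (fun p : ℂ × (Fin n → ℂ) => (Fin.cons p.1 p.2 : Fin (n + 1) → ℂ)) := by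
    refine continuous_pi fun i => ?_
    refine Fin.cases ?_ (fun j => ?_) i
    · simp only [Fin.cons_zero]
      exact continuous_fst
    · simp only [Fin.cons_succ]
      exact (continuous_apply j).comp continuous_snd
  have hdiffs : ∀ z : Fin n → ℂ,
      Differentiable ℂ (fun s : ℂ => f (Fin.cons s z : Fin (n + 1) → ℂ)) := by
    intro z
    refine hf.comp ?_
    rw [differentiable_pi]
    intro i
    refine Fin.cases ?_ (fun j => ?_) i
    · simp only [Fin.cons_zero]
      exact differentiable_id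
    · simp only [Fin.cons_succ]
      exact differentiable_const _
  have hrep : (fun z : Fin n → ℂ =>
      iteratedDeriv k (fun s : ℂ => f (Fin.cons s z : Fin (n + 1) → ℂ)) 0) = fun z =>
      (k.factorial : ℂ) * ((2 * Real.pi * Complex.I : ℂ)⁻¹ *
        ∫ θ in (0 : ℝ)..2 * Real.pi, jC_wt k θ * f (Fin.cons (circleMap 0 1 θ) z)) := by
    funext z
    exact jC_iter_eq _ (hdiffs z) k
  rw [hrep]
  refine Differentiable.const_mul (Differentiable.const_mul ?_ _) _
  intro z₀
  -- bound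
  have hcm : Continuous (circleMap (0 : ℂ) 1) := continuous_circleMap 0 1
  obtain ⟨M, hM⟩ := (isCompact_closedBall (0 : Fin (n + 1) → ℂ) (‖z₀‖ + 3)).exists_bound_of_continuousOn
    hf.continuous.continuousOn
  obtain ⟨Cw, hCw⟩ := (isCompact_Icc (a := (0 : ℝ)) (b := 2 * Real.pi)).exists_bound_of_continuousOn
    (jC_wt_cont k).continuousOn
  have hfd : ∀ z ∈ Metric.ball z₀ 1, ∀ θ : ℝ,
      ‖fderiv ℂ f (Fin.cons (circleMap 0 1 θ) z)‖ ≤ M := by
    intro z hz θ
    apply jC_fd_bound f hf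
    intro y hy
    apply hM
    rw [Metric.mem_closedBall] at hy ⊢
    rw [Metric.mem_ball] at hz
    have h1 : ‖(Fin.cons (circleMap 0 1 θ) z : Fin (n + 1) → ℂ)‖ ≤ ‖z₀‖ + 2 := by
      rw [pi_norm_le_iff_of_nonneg (by positivity)]
      intro i
      refine Fin.cases ?_ (fun j => ?_) i
      · simp only [Fin.cons_zero]
        rw [norm_circleMap_zero, abs_one]
        have := norm_nonneg z₀
        linarith
      · simp only [Fin.cons_succ]
        have h2 := norm_le_pi_norm z j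
        have h3 : ‖z‖ ≤ ‖z₀‖ + 1 := by
          have h4 := norm_sub_norm_le z z₀
          rw [← dist_eq_norm] at h4
          linarith
        linarith
    have h2 : dist y 0 ≤ dist y (Fin.cons (circleMap 0 1 θ) z : Fin (n + 1) → ℂ) +
        dist (Fin.cons (circleMap 0 1 θ) z : Fin (n + 1) → ℂ) 0 := dist_triangle _ _ _
    rw [dist_zero_right (Fin.cons (circleMap 0 1 θ) z : Fin (n + 1) → ℂ)] at h2
    linarith
  have hM0 : 0 ≤ M := (norm_nonneg _).trans (hfd z₀ (Metric.mem_ball_self one_pos) 0)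
  have hCw0 : 0 ≤ Cw := (norm_nonneg _).trans (hCw 0 ⟨le_rfl, by positivity⟩)
  have hderiv : ∀ (θ : ℝ) (z : Fin n → ℂ), HasFDerivAt
      (fun z => jC_wt k θ * f (Fin.cons (circleMap 0 1 θ) z))
      (jC_wt k θ • (fderiv ℂ f (Fin.cons (circleMap 0 1 θ) z)).comp ι) z := by
    intro θ z
    have h1 : HasFDerivAt (fun z : Fin n → ℂ => (Fin.cons (circleMap 0 1 θ) z : Fin (n + 1) → ℂ))
        ι z := by
      have h2 : (fun z : Fin n → ℂ => (Fin.cons (circleMap 0 1 θ) z : Fin (n + 1) → ℂ)) =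
          fun z => (Fin.cons (circleMap 0 1 θ) 0 : Fin (n + 1) → ℂ) + ι z := by
        funext z
        exact hcons _ _
      rw [h2]
      exact ι.hasFDerivAt.const_add _
    have h3 := ((hf (Fin.cons (circleMap 0 1 θ) z)).hasFDerivAt.comp z h1).const_mul (jC_wt k θ)
    exact h3
  have hmain := intervalIntegral.hasFDerivAt_integral_of_dominated_of_fderiv_le
    (μ := MeasureTheory.volume) (a := 0) (b := 2 * Real.pi)
    (F := fun (z : Fin n → ℂ) (θ : ℝ) => jC_wt k θ * f (Fin.cons (circleMap 0 1 θ) z))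
    (F' := fun z θ => jC_wt k θ • (fderiv ℂ f (Fin.cons (circleMap 0 1 θ) z)).comp ι)
    (x₀ := z₀) (s := Metric.ball z₀ 1) (bound := fun _ => Cw * (M * ‖ι‖))
    (Metric.ball_mem_nhds z₀ one_pos)
    (Filter.Eventually.of_forall fun z =>
      ((jC_wt_cont k).mul (hf.continuous.comp (hcont.comp
        (hcm.prodMk continuous_const)))).aestronglyMeasurable)
    (((jC_wt_cont k).mul (hf.continuous.comp (hcont.comp
        (hcm.prodMk continuous_const)))).intervalIntegrable _ _)
    (by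
      refine (jC_wt_cont k).aestronglyMeasurable.smul ?_
      have h1 : Measurable (fun θ : ℝ => fderiv ℂ f (Fin.cons (circleMap 0 1 θ) z₀)) :=
        (measurable_fderiv ℂ f).comp (hcont.comp (hcm.prodMk continuous_const)).measurable
      have h2 : Continuous (fun L : (Fin (n + 1) → ℂ) →L[ℂ] ℂ => L.comp ι) := by fun_prop
      exact (h2.comp_aestronglyMeasurable h1.aestronglyMeasurable))
    (by
      refine MeasureTheory.ae_of_all _ fun θ hθ z hz => ?_
      rw [Set.uIoc_of_le (by positivity)] at hθ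
      rw [norm_smul]
      refine mul_le_mul (hCw θ ⟨hθ.1.le, hθ.2⟩) ?_ (norm_nonneg _) hCw0
      exact (ContinuousLinearMap.opNorm_comp_le _ _).trans
        (mul_le_mul_of_nonneg_right (hfd z hz θ) (norm_nonneg _)))
    (continuous_const.intervalIntegrable _ _)
    (MeasureTheory.ae_of_all _ fun θ _ z _ => hderiv θ z)
  exact hmain.differentiableAt

/-! ### jCb -/

theorem jCb_coef_aux_diff {n : ℕ} (f : (Fin (n + 1) → ℂ) → ℂ) (hf : Differentiable ℂ f)
    (z : Fin n → ℂ) : Differentiable ℂ (fun s : ℂ => f (Fin.cons s z : Fin (n + 1) → ℂ)) := by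
  have h : Differentiable ℂ (fun s : ℂ => (Fin.cons s z : Fin (n + 1) → ℂ)) := by
    rw [differentiable_pi]
    intro i
    refine Fin.cases ?_ (fun j => ?_) i
    · simp only [Fin.cons_zero]; exact differentiable_id
    · simp only [Fin.cons_succ]; exact differentiable_const _
  exact hf.comp h

theorem coef_bound {n : ℕ} (f : (Fin (n + 1) → ℂ) → ℂ) (hf : Differentiable ℂ f) (k : ℕ)
    (ρ M : ℝ) (hρ : 0 < ρ) (hM : ∀ z, ‖z‖ ≤ ρ → ‖f z‖ ≤ M) (z : Fin n → ℂ) (hz : ‖z‖ ≤ ρ) :
    ‖iteratedDeriv k (fun s : ℂ => f (Fin.cons s z : Fin (n + 1) → ℂ)) 0 / (k.factorial : ℂ)‖ *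
      ρ ^ k ≤ M := by
  have hd := jCb_coef_aux_diff f hf z
  have h1 := Complex.norm_iteratedDeriv_le_of_forall_mem_sphere_norm_le (c := 0) (R := ρ) (C := M)
    (f := fun s : ℂ => f (Fin.cons s z : Fin (n + 1) → ℂ)) k hρ hd.diffContOnCl (by
      intro s hs
      have hs' : ‖s‖ = ρ := by simpa using hs
      apply hM
      rw [pi_norm_le_iff_of_nonneg hρ.le]
      intro i
      refine Fin.cases ?_ (fun j => ?_) i
      · simp only [Fin.cons_zero]; exact hs'.le
      · simp only [Fin.cons_succ]; exact (norm_le_pi_norm z j).trans hz)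
  have hk : (0 : ℝ) < (k.factorial : ℝ) := by exact_mod_cast k.factorial_pos
  have hρk : 0 < ρ ^ k := pow_pos hρ k
  rw [norm_div]
  have hn : ‖((k.factorial : ℕ) : ℂ)‖ = (k.factorial : ℝ) := by simp
  rw [hn]
  calc ‖iteratedDeriv k (fun s : ℂ => f (Fin.cons s z : Fin (n + 1) → ℂ)) 0‖ /
        (k.factorial : ℝ) * ρ ^ k
      ≤ ((k.factorial : ℝ) * M / ρ ^ k) / (k.factorial : ℝ) * ρ ^ k := by gcongr
    _ = M := by field_simp

theorem coef_hasSum {n : ℕ} (f : (Fin (n + 1) → ℂ) → ℂ) (hf : Differentiable ℂ f) (t : ℂ)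
    (z : Fin n → ℂ) :
    HasSum (fun k : ℕ =>
      iteratedDeriv k (fun s : ℂ => f (Fin.cons s z : Fin (n + 1) → ℂ)) 0 / (k.factorial : ℂ) *
        t ^ k) (f (Fin.cons t z : Fin (n + 1) → ℂ)) := by
  have hd := jCb_coef_aux_diff f hf z
  have h := Complex.hasSum_taylorSeries_of_entire hd 0 t
  have e : (fun k : ℕ =>
      iteratedDeriv k (fun s : ℂ => f (Fin.cons s z : Fin (n + 1) → ℂ)) 0 / (k.factorial : ℂ) *
        t ^ k) = fun k : ℕ => ((k.factorial : ℕ) : ℂ)⁻¹ • (t - 0) ^ k •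
          iteratedDeriv k (fun s : ℂ => f (Fin.cons s z : Fin (n + 1) → ℂ)) 0 := by
    funext k
    simp only [sub_zero, smul_eq_mul]
    rw [div_eq_mul_inv]
    ring
  rw [e]
  exact h

/-! ### jTy -/

/-- the Taylor series of an entire function of `n` variables, with Cauchy's estimates -/
theorem taylor {n : ℕ} (f : (Fin n → ℂ) → ℂ) (hf : Differentiable ℂ f) :
    ∃ c : (Fin n → ℕ) → ℂ,
      (∀ ρ M : ℝ, 0 < ρ → (∀ z, ‖z‖ ≤ ρ → ‖f z‖ ≤ M) → ∀ α, ‖c α‖ * ρ ^ (∑ i, α i) ≤ M) ∧
      ∀ z, HasSum (fun α : Fin n → ℕ => c α * ∏ i, z i ^ α i) (f z) := by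
  induction n with
  | zero =>
    refine ⟨fun _ => f 0, ?_, ?_⟩
    · intro ρ M hρ hM α
      have h0 : ‖f 0‖ ≤ M := hM 0 (by rw [norm_zero]; exact hρ.le)
      simpa using h0
    · intro z
      have h1 := hasSum_unique (fun α : Fin 0 → ℕ => f 0 * ∏ i, z i ^ α i)
      have h2 : z = 0 := Subsingleton.elim _ _
      simpa [h2] using h1
  | succ n ih =>
    let a : ℕ → (Fin n → ℂ) → ℂ := fun k z =>
      iteratedDeriv k (fun s : ℂ => f (Fin.cons s z : Fin (n + 1) → ℂ)) 0 / (k.factorial : ℂ)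
    have ha : ∀ k, Differentiable ℂ (a k) := by
      intro k
      simp only [a, div_eq_mul_inv]
      exact (coef_diff f hf k).mul_const _
    choose c' hb hs using fun k => ih (a k) (ha k)
    have hbound : ∀ ρ M : ℝ, 0 < ρ → (∀ z, ‖z‖ ≤ ρ → ‖f z‖ ≤ M) → ∀ α : Fin (n + 1) → ℕ,
        ‖c' (α 0) (fun i => α i.succ)‖ * ρ ^ (∑ i, α i) ≤ M := by
      intro ρ M hρ hM α
      have hk : 0 < ρ ^ (α 0) := by positivity
      have h1 := hb (α 0) ρ (M / ρ ^ (α 0)) hρ (fun z hz => by
        rw [le_div_iff₀ hk]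
        exact coef_bound f hf (α 0) ρ M hρ hM z hz) (fun i => α i.succ)
      rw [le_div_iff₀ hk] at h1
      rw [Fin.sum_univ_succ, pow_add]
      calc ‖c' (α 0) (fun i => α i.succ)‖ * (ρ ^ (α 0) * ρ ^ (∑ i : Fin n, α i.succ))
          = ‖c' (α 0) (fun i => α i.succ)‖ * ρ ^ (∑ i : Fin n, α i.succ) * ρ ^ (α 0) := by ring
        _ ≤ M := h1
    refine ⟨fun α => c' (α 0) (fun i => α i.succ), hbound, ?_⟩
    intro z
    set F : (Fin (n + 1) → ℕ) → ℂ := fun α => c' (α 0) (fun i => α i.succ) * ∏ i, z i ^ α i with hF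
    have hsum : Summable F := by
      set R : ℝ := max 1 ‖z‖ with hR
      have hR1 : 1 ≤ R := le_max_left _ _
      have hRz : ∀ i, ‖z i‖ ≤ R := fun i => (norm_le_pi_norm z i).trans (le_max_right _ _)
      have hR0 : 0 < R := by linarith
      obtain ⟨M, hM⟩ := (isCompact_closedBall (0 : Fin (n + 1) → ℂ) (2 * R)).exists_bound_of_continuousOn
        hf.continuous.continuousOn
      have hM' : ∀ w, ‖w‖ ≤ 2 * R → ‖f w‖ ≤ M := fun w hw => hM w (by simpa using hw)
      refine Summable.of_norm_bounded (g := fun α : Fin (n + 1) → ℕ => M * (1 / 2 : ℝ) ^ (∑ i, α i))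
        ((geom_summable (n + 1) (1 / 2) (by norm_num) (by norm_num)).mul_left M) ?_
      intro α
      have h1 := hbound (2 * R) M (by positivity) hM' α
      have h2 : ‖∏ i, z i ^ α i‖ ≤ R ^ (∑ i, α i) := by
        rw [norm_prod, ← Finset.prod_pow_eq_pow_sum]
        refine Finset.prod_le_prod (fun i _ => norm_nonneg _) (fun i _ => ?_)
        rw [norm_pow]
        exact pow_le_pow_left₀ (norm_nonneg _) (hRz i) _
      have h3 : R ^ (∑ i, α i) = (2 * R) ^ (∑ i, α i) * (1 / 2 : ℝ) ^ (∑ i, α i) := by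
        rw [← mul_pow]
        congr 1
        ring
      calc ‖F α‖ = ‖c' (α 0) (fun i => α i.succ)‖ * ‖∏ i, z i ^ α i‖ := by
            rw [hF, norm_mul]
        _ ≤ ‖c' (α 0) (fun i => α i.succ)‖ * ((2 * R) ^ (∑ i, α i) * (1 / 2 : ℝ) ^ (∑ i, α i)) := by
            rw [← h3]
            exact mul_le_mul_of_nonneg_left h2 (norm_nonneg _)
        _ = ‖c' (α 0) (fun i => α i.succ)‖ * (2 * R) ^ (∑ i, α i) * (1 / 2 : ℝ) ^ (∑ i, α i) := by
            ring
        _ ≤ M * (1 / 2 : ℝ) ^ (∑ i, α i) :=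
            mul_le_mul_of_nonneg_right h1 (by positivity)
    let e : ℕ × (Fin n → ℕ) ≃ (Fin (n + 1) → ℕ) := Fin.consEquiv (fun _ => ℕ)
    have h1 : HasSum (fun p : ℕ × (Fin n → ℕ) => F (e p)) (∑' α, F α) :=
      (e.hasSum_iff).2 hsum.hasSum
    have h2 : ∀ k : ℕ, HasSum (fun β : Fin n → ℕ => F (e (k, β)))
        (a k (fun i => z i.succ) * z 0 ^ k) := by
      intro k
      have h3 := (hs k (fun i => z i.succ)).mul_right (z 0 ^ k)
      have h7 : (fun β : Fin n → ℕ => F (e (k, β))) =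
          fun β => c' k β * (∏ i, (fun i => z (Fin.succ i)) i ^ β i) * z 0 ^ k := by
        funext β
        simp only [hF, e, Fin.consEquiv_apply, Fin.cons_zero, Fin.cons_succ, Fin.prod_univ_succ]
        ring
      rw [h7]
      exact h3
    have h3 := h1.prod_fiberwise h2
    have h4 := coef_hasSum f hf (z 0) (fun i => z i.succ)
    have h5 : (Fin.cons (z 0) (fun i => z i.succ) : Fin (n + 1) → ℂ) = z := Fin.cons_self_tail z
    rw [h5] at h4
    have h6 : ∑' α, F α = f z := h3.unique h4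
    rw [← h6]
    exact hsum.hasSum


end Pool.Agent.Helper734.Tay
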