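import Mathlib
import Pool.Agent.Helper667.NoRetract
import Pool.Agent.Helper82.OS.Defs

set_option autoImplicit false

open Metric Set Filter Topology
open scoped ContDiff

namespace Pool.Agent.Helper734.UM

/-- Euclidean space -/
abbrev E (D : ℕ) := EuclideanSpace ℝ (Fin D)

/-- smooth unit tangent fields on the unit sphere -/
structure UT {D : ℕ} (V : E D → E D) : Prop where
  sm : ContDiff ℝ ∞ V
  tan : ∀ x : E D, ‖x‖ = 1 → inner ℝ x (V x) = 0
  unit : ∀ x : E D, ‖x‖ = 1 → ‖V x‖ = 1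

/-- the umbilic factor -/
noncomputable def lam (m : ℕ) (V : E (2 * m + 2) → E (2 * m + 2)) (x : E (2 * m + 2)) : ℝ :=
  (LinearMap.trace ℝ (E (2 * m + 2)) (fderiv ℝ V x : E (2 * m + 2) →ₗ[ℝ] E (2 * m + 2))
    - inner ℝ (fderiv ℝ V x x) x) / (2 * m)

/-- `DV(x)` is a multiple of the identity on the orthogonal complement of `x` and `V x` -/
def Umb {D : ℕ} (V : E D → E D) : Prop :=
  ∀ x : E D, ‖x‖ = 1 → ∃ l : ℝ, ∀ k : E D, inner ℝ k x = 0 → inner ℝ k (V x) = 0 →
    fderiv ℝ V x k = l • k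


/-- there is no nonvanishing field on the ball which points outwards on the boundary -/
theorem no_outward {D : ℕ} (hD : 1 ≤ D) (F : E D → E D)
    (hF : ∀ x ∈ closedBall (0 : E D) 1, ContDiffAt ℝ 1 F x)
    (hne : ∀ x ∈ closedBall (0 : E D) 1, F x ≠ 0)
    (hout : ∀ x : E D, ‖x‖ = 1 → 0 < inner ℝ x (F x)) : False := by
  haveI : Nonempty (Fin D) := ⟨⟨0, hD⟩⟩
  haveI : Nontrivial (E D) := inferInstance
  exact Pool.Agent.Helper667.NoRetract.no_outward F hF hne hout

/-! ### jS -/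

theorem jS_sphere_deriv_gen {D : ℕ} {F : Type*} [NormedAddCommGroup F] [NormedSpace ℝ F]
    (G : E D → F) (x k : E D) (hG : DifferentiableAt ℝ G x)
    (h0 : ∀ y : E D, ‖y‖ = 1 → G y = 0) (hx : ‖x‖ = 1) (hk : inner ℝ k x = 0) :
    fderiv ℝ G x k = 0 := by
  by_cases hk0 : k = 0
  · rw [hk0, map_zero]
  have hc : 0 < ‖k‖ := norm_pos_iff.2 hk0
  obtain ⟨c, hcdef⟩ : ∃ c, c = ‖k‖ := ⟨_, rfl⟩
  rw [← hcdef] at hc
  have hxk : inner ℝ x k = (0 : ℝ) := by rw [real_inner_comm]; exact hk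
  have hy : ∀ t : ℝ, ‖Real.cos (t * c) • x + Real.sin (t * c) • (c⁻¹ • k)‖ = 1 := by
    intro t
    have h1 : ‖Real.cos (t * c) • x + Real.sin (t * c) • (c⁻¹ • k)‖ ^ 2 = 1 := by
      rw [norm_add_sq_real, norm_smul, norm_smul, norm_smul, inner_smul_left, inner_smul_right,
        inner_smul_right, hxk, hx, ← hcdef, norm_inv, Real.norm_of_nonneg hc.le,
        inv_mul_cancel₀ hc.ne', mul_one, mul_one, Real.norm_eq_abs, Real.norm_eq_abs, sq_abs,
        sq_abs]
      have := Real.sin_sq_add_cos_sq (t * c)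
      simp only [mul_zero, add_zero]
      linarith
    have h2 := norm_nonneg (Real.cos (t * c) • x + Real.sin (t * c) • (c⁻¹ • k))
    nlinarith
  have hd : HasDerivAt (fun t : ℝ => Real.cos (t * c) • x + Real.sin (t * c) • (c⁻¹ • k)) k 0 := by
    have h1 : HasDerivAt (fun t : ℝ => t * c) c 0 := by
      have := (hasDerivAt_id (0 : ℝ)).mul_const c
      rw [one_mul] at this
      exact this
    have h2 : HasDerivAt (fun t : ℝ => Real.cos (t * c)) (-Real.sin (0 * c) * c) 0 := h1.cos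
    have h3 : HasDerivAt (fun t : ℝ => Real.sin (t * c)) (Real.cos (0 * c) * c) 0 := h1.sin
    have h4 := (h2.smul_const x).add (h3.smul_const (c⁻¹ • k))
    have e : (-Real.sin (0 * c) * c) • x + (Real.cos (0 * c) * c) • (c⁻¹ • k) = k := by
      rw [zero_mul, Real.sin_zero, Real.cos_zero, neg_zero, zero_mul, zero_smul, zero_add, one_mul,
        smul_smul, mul_inv_cancel₀ hc.ne', one_smul]
    rw [e] at h4
    exact h4
  have hx0 : x = Real.cos (0 * c) • x + Real.sin (0 * c) • (c⁻¹ • k) := by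
    rw [zero_mul, Real.sin_zero, Real.cos_zero, zero_smul, one_smul, add_zero]
  have h1 : HasDerivAt (fun t : ℝ => G (Real.cos (t * c) • x + Real.sin (t * c) • (c⁻¹ • k)))
      (fderiv ℝ G x k) 0 := hG.hasFDerivAt.comp_hasDerivAt_of_eq (0 : ℝ) hd hx0
  have h2 : (fun t : ℝ => G (Real.cos (t * c) • x + Real.sin (t * c) • (c⁻¹ • k))) =
      fun _ => 0 := funext fun t => h0 _ (hy t)
  rw [h2] at h1
  exact h1.unique (hasDerivAt_const (0 : ℝ) (0 : F))

/-- a differentiable function vanishing on the sphere has vanishing tangential derivatives -/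
theorem sphere_deriv {D D' : ℕ} (G : E D → E D') (x k : E D) (hG : DifferentiableAt ℝ G x)
    (h0 : ∀ y : E D, ‖y‖ = 1 → G y = 0) (hx : ‖x‖ = 1) (hk : inner ℝ k x = 0) :
    fderiv ℝ G x k = 0 := jS_sphere_deriv_gen G x k hG h0 hx hk

theorem sphere_deriv_real {D : ℕ} (G : E D → ℝ) (x k : E D) (hG : DifferentiableAt ℝ G x)
    (h0 : ∀ y : E D, ‖y‖ = 1 → G y = 0) (hx : ‖x‖ = 1) (hk : inner ℝ k x = 0) :
    fderiv ℝ G x k = 0 := jS_sphere_deriv_gen G x k hG h0 hx hk

/-! ### jV -/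

theorem dV_V {D : ℕ} {V : E D → E D} (hV : UT V) (x k : E D) (hx : ‖x‖ = 1)
    (hk : inner ℝ k x = 0) : inner ℝ (fderiv ℝ V x k) (V x) = 0 := by
  have hd : DifferentiableAt ℝ V x := (hV.sm.differentiable (by simp)) x
  have h1 : HasFDerivAt V (fderiv ℝ V x) x := hd.hasFDerivAt
  have h2 := (h1.inner ℝ h1).sub_const 1
  have h3 := sphere_deriv_real (fun y => inner ℝ (V y) (V y) - 1) x k h2.differentiableAt
    (by
      intro y hy
      show inner ℝ (V y) (V y) - 1 = (0 : ℝ)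
      rw [real_inner_self_eq_norm_sq, hV.unit y hy]
      norm_num) hx hk
  rw [h2.fderiv] at h3
  simp only [ContinuousLinearMap.comp_apply, ContinuousLinearMap.prod_apply,
    fderivInnerCLM_apply] at h3
  rw [real_inner_comm (fderiv ℝ V x k) (V x)] at h3
  linarith

/-! ### jL -/

theorem lam_smooth {m : ℕ} {V : E (2 * m + 2) → E (2 * m + 2)} (hV : UT V) :
    ContDiff ℝ ∞ (lam m V) := by
  have hD : ContDiff ℝ ∞ (fderiv ℝ V) := hV.sm.fderiv_right (by simp)
  -- the trace as a continuous linear map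
  let tr : (E (2 * m + 2) →L[ℝ] E (2 * m + 2)) →ₗ[ℝ] ℝ :=
    (LinearMap.trace ℝ (E (2 * m + 2))).comp (ContinuousLinearMap.coeLM ℝ)
  have ht : ContDiff ℝ ∞ (fun x => tr (fderiv ℝ V x)) := by
    have h1 : ContDiff ℝ ∞ (LinearMap.toContinuousLinearMap tr) := ContinuousLinearMap.contDiff _
    exact h1.comp hD
  have ha : ContDiff ℝ ∞ (fun x => fderiv ℝ V x x) := hD.clm_apply contDiff_id
  have hi : ContDiff ℝ ∞ (fun x => inner ℝ (fderiv ℝ V x x) x) := ha.inner ℝ contDiff_id
  have := (ht.sub hi).div_const ((2 * m : ℕ) : ℝ)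
  have e : lam m V = fun x => (tr (fderiv ℝ V x) - inner ℝ (fderiv ℝ V x x) x) / ((2 * m : ℕ) : ℝ) := by
    funext x
    simp only [lam, tr]
    push_cast
    rfl
  rw [e]
  exact this

/-! ### jE -/

/-- the factor in the umbilic condition is `lam` -/
theorem lam_eq {m : ℕ} (hm : 1 ≤ m) {V : E (2 * m + 2) → E (2 * m + 2)} (hV : UT V)
    (hU : Umb V) (x k : E (2 * m + 2)) (hx : ‖x‖ = 1) (hk : inner ℝ k x = 0)
    (hkV : inner ℝ k (V x) = 0) : fderiv ℝ V x k = lam m V x • k := by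
  classical
  obtain ⟨l, hl⟩ := hU x hx
  have hV1 : ‖V x‖ = 1 := hV.unit x hx
  have hVt : inner ℝ x (V x) = 0 := hV.tan x hx
  have hVt' : inner ℝ (V x) x = 0 := by rw [real_inner_comm]; exact hVt
  suffices hlam : lam m V x = l by
    rw [hlam]; exact hl k hk hkV
  have h01 : (0 : Fin (2 * m + 2)) ≠ 1 := by
    intro h
    have := congrArg Fin.val h
    simp at this
  let v : Fin (2 * m + 2) → E (2 * m + 2) := fun i => if i = 0 then x else V x
  let s : Set (Fin (2 * m + 2)) := {0, 1}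
  have hv0 : v 0 = x := if_pos rfl
  have hv1 : v 1 = V x := if_neg (Ne.symm h01)
  have hv : Orthonormal ℝ (s.domRestrict v) := by
    constructor
    · rintro ⟨i, hi⟩
      show ‖v i‖ = 1
      rcases hi with hi | hi
      · rw [hi, hv0]; exact hx
      · have hi' : i = 1 := hi
        rw [hi', hv1]; exact hV1
    · rintro ⟨i, hi⟩ ⟨j, hj⟩ hij
      have hij' : i ≠ j := fun h => hij (Subtype.ext h)
      show inner ℝ (v i) (v j) = 0
      rcases hi with hi | hi
      · rcases hj with hj | hj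
        · exact absurd (hi.trans hj.symm) hij'
        · have hj' : j = 1 := hj
          rw [hi, hj', hv0, hv1]
          exact hVt
      · have hi' : i = 1 := hi
        rcases hj with hj | hj
        · rw [hj, hi', hv0, hv1]
          exact hVt'
        · have hj' : j = 1 := hj
          exact absurd (hi'.trans hj'.symm) hij'
  have hcard : Module.finrank ℝ (E (2 * m + 2)) = Fintype.card (Fin (2 * m + 2)) := by
    simp [E]
  obtain ⟨b, hb⟩ := hv.exists_orthonormalBasis_extension_of_card_eq hcard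
  have hb0 : b 0 = x := by
    have := hb 0 (by simp [s])
    simpa [v] using this
  have hb1 : b 1 = V x := by
    have := hb 1 (by simp [s])
    rw [this]
    simp only [v]
    rw [if_neg (Ne.symm h01)]
  have htr := LinearMap.trace_eq_sum_inner (𝕜 := ℝ)
    (fderiv ℝ V x : E (2 * m + 2) →ₗ[ℝ] E (2 * m + 2)) b
  have hrest : ∀ i : Fin (2 * m), inner ℝ (b i.succ.succ)
      ((fderiv ℝ V x : E (2 * m + 2) →ₗ[ℝ] E (2 * m + 2)) (b i.succ.succ)) = l := by
    intro i
    have hn0 : (i.succ.succ : Fin (2 * m + 2)) ≠ 0 := Fin.succ_ne_zero _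
    have hn1 : (i.succ.succ : Fin (2 * m + 2)) ≠ 1 := by
      intro h
      have := congrArg Fin.val h
      simp at this
    have e0 : inner ℝ (b i.succ.succ) x = 0 := by
      rw [← hb0]; exact b.orthonormal.2 hn0
    have e1 : inner ℝ (b i.succ.succ) (V x) = 0 := by
      rw [← hb1]; exact b.orthonormal.2 hn1
    have e2 : (fderiv ℝ V x : E (2 * m + 2) →ₗ[ℝ] E (2 * m + 2)) (b i.succ.succ)
        = l • b i.succ.succ := hl _ e0 e1
    rw [e2, inner_smul_right, real_inner_self_eq_norm_sq, b.orthonormal.1]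
    simp
  rw [Fin.sum_univ_succ, Fin.sum_univ_succ] at htr
  have hs1 : (Fin.succ 0 : Fin (2 * m + 2)) = 1 := rfl
  rw [Finset.sum_congr rfl (fun i _ => hrest i), hs1, hb0, hb1] at htr
  have hz : inner ℝ (V x) ((fderiv ℝ V x : E (2 * m + 2) →ₗ[ℝ] E (2 * m + 2)) (V x)) = 0 := by
    rw [real_inner_comm]
    exact dV_V hV x (V x) hx hVt'
  rw [hz] at htr
  have hm' : (m : ℝ) ≠ 0 := by positivity
  unfold lam
  rw [htr]
  have hc : inner ℝ x ((fderiv ℝ V x : E (2 * m + 2) →ₗ[ℝ] E (2 * m + 2)) x)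
      = inner ℝ (fderiv ℝ V x x) x := by
    rw [real_inner_comm]; rfl
  rw [hc]
  simp only [Finset.sum_const, Finset.card_univ, Fintype.card_fin, nsmul_eq_mul]
  push_cast
  field_simp
  ring

/-! ### j2 -/

/-- the second derivative of `V` on orthogonal vectors of the complement -/
theorem second {m : ℕ} (hm : 1 ≤ m) {V : E (2 * m + 2) → E (2 * m + 2)} (hV : UT V)
    (hU : Umb V) (x k h : E (2 * m + 2)) (hx : ‖x‖ = 1) (hk : inner ℝ k x = 0)
    (hkV : inner ℝ k (V x) = 0) (hh : inner ℝ h x = 0) (hhV : inner ℝ h (V x) = 0)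
    (hkh : inner ℝ h k = 0) :
    fderiv ℝ (fderiv ℝ V) x k h = (fderiv ℝ (lam m V) x k) • h := by
  have HV : HasFDerivAt V (fderiv ℝ V x) x := (hV.sm.differentiable (by simp) x).hasFDerivAt
  have HV2 : HasFDerivAt (fderiv ℝ V) (fderiv ℝ (fderiv ℝ V) x) x := by
    have h1 : ContDiff ℝ 1 (fderiv ℝ V) := hV.sm.fderiv_right (by norm_cast)
    exact (h1.differentiable (by simp) x).hasFDerivAt
  have Hl : HasFDerivAt (lam m V) (fderiv ℝ (lam m V) x) x :=
    ((lam_smooth hV).differentiable (by simp) x).hasFDerivAt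
  have ha1 : HasFDerivAt (fun y : E (2 * m + 2) => inner ℝ h y) (innerSL ℝ h) x :=
    (innerSL ℝ h).hasFDerivAt
  have ha2 : HasFDerivAt (fun y : E (2 * m + 2) => inner ℝ h (V y))
      ((innerSL ℝ h).comp (fderiv ℝ V x)) x :=
    (innerSL ℝ h).hasFDerivAt.comp x HV
  have Hh := ((hasFDerivAt_const h x).sub (ha1.smul (hasFDerivAt_id x))).sub (ha2.smul HV)
  have hG := (HV2.clm_apply Hh).sub (Hl.smul Hh)
  have hlk : fderiv ℝ V x k = lam m V x • k := lam_eq hm hV hU x k hx hk hkV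
  have hzero := sphere_deriv _ x k hG.differentiableAt (fun y hy => ?_) hx hk
  · rw [hG.fderiv] at hzero
    simp [hh, hhV, hkh, hlk, inner_smul_right] at hzero
    rw [sub_eq_zero] at hzero
    exact hzero
  · have hyy : inner ℝ y y = (1:ℝ) := by
      rw [real_inner_self_eq_norm_sq, hy]; norm_num
    have hVV : inner ℝ (V y) (V y) = (1:ℝ) := by
      rw [real_inner_self_eq_norm_sq, hV.unit y hy]; norm_num
    have hyV : inner ℝ y (V y) = (0:ℝ) := hV.tan y hy
    have hVy : inner ℝ (V y) y = (0:ℝ) := by rw [real_inner_comm]; exact hyV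
    have e := lam_eq hm hV hU y (h - inner ℝ h y • y - inner ℝ h (V y) • V y) hy
      (by rw [inner_sub_left, inner_sub_left, inner_smul_left, inner_smul_left, hyy, hVy]; simp)
      (by rw [inner_sub_left, inner_sub_left, inner_smul_left, inner_smul_left, hVV, hyV]; simp)
    simpa [sub_eq_zero] using e

/-! ### jO -/

/-- there is a unit vector orthogonal to three given vectors -/
theorem exists_orth {m : ℕ} (hm : 1 ≤ m) (a b c : E (2 * m + 2)) :
    ∃ h : E (2 * m + 2), h ≠ 0 ∧ inner ℝ h a = 0 ∧ inner ℝ h b = 0 ∧ inner ℝ h c = 0 := by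
  classical
  set S : Submodule ℝ (E (2 * m + 2)) := Submodule.span ℝ (({a, b, c} : Finset (E (2 * m + 2))) : Set (E (2 * m + 2))) with hS
  have h1 : Module.finrank ℝ S ≤ 3 :=
    (finrank_span_finset_le_card (R := ℝ) ({a, b, c} : Finset (E (2 * m + 2)))).trans Finset.card_le_three
  have h2 := Submodule.finrank_add_finrank_orthogonal S
  rw [finrank_euclideanSpace_fin] at h2
  have h3 : 0 < Module.finrank ℝ Sᗮ := by omega
  have h4 : Sᗮ ≠ ⊥ := by
    intro h
    rw [h, finrank_bot] at h3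
    exact lt_irrefl _ h3
  obtain ⟨h, hh, hne⟩ := Submodule.exists_mem_ne_zero_of_ne_bot h4
  refine ⟨h, hne, ?_, ?_, ?_⟩
  · exact (Submodule.mem_orthogonal' S h).1 hh a (Submodule.subset_span (by simp))
  · exact (Submodule.mem_orthogonal' S h).1 hh b (Submodule.subset_span (by simp))
  · exact (Submodule.mem_orthogonal' S h).1 hh c (Submodule.subset_span (by simp))

/-! ### jD -/

theorem dlam_zero {m : ℕ} (hm : 1 ≤ m) {V : E (2 * m + 2) → E (2 * m + 2)} (hV : UT V)
    (hU : Umb V) (x k : E (2 * m + 2)) (hx : ‖x‖ = 1) (hk : inner ℝ k x = 0)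
    (hkV : inner ℝ k (V x) = 0) : fderiv ℝ (lam m V) x k = 0 := by
  obtain ⟨h, hh0, hhx, hhV, hhk⟩ := exists_orth hm x (V x) k
  have hkh : inner ℝ k h = 0 := by rw [real_inner_comm]; exact hhk
  have s1 := second hm hV hU x k h hx hk hkV hhx hhV hhk
  have s2 := second hm hV hU x h k hx hhx hhV hk hkV hkh
  have hsym : IsSymmSndFDerivAt ℝ V x := by
    apply hV.sm.contDiffAt.isSymmSndFDerivAt
    rw [minSmoothness_of_isRCLikeNormedField]
    exact WithTop.coe_le_coe.2 (le_top : (2 : ℕ∞) ≤ ⊤)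
  have s3 := hsym k h
  rw [s1, s2] at s3
  have s4 := congrArg (fun z => inner ℝ h z) s3
  simp only [inner_smul_right, hhk, mul_zero, real_inner_self_eq_norm_sq] at s4
  have hn : ‖h‖ ^ 2 ≠ 0 := by
    have := norm_pos_iff.2 hh0
    positivity
  exact (mul_eq_zero.1 s4).resolve_right hn

theorem dw_zero {m : ℕ} (hm : 1 ≤ m) {V : E (2 * m + 2) → E (2 * m + 2)} (hV : UT V)
    (hU : Umb V) (x k : E (2 * m + 2)) (hx : ‖x‖ = 1) (hk : inner ℝ k x = 0)
    (hkV : inner ℝ k (V x) = 0) :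
    fderiv ℝ (fun y => V y - lam m V y • y) x k = 0 := by
  have h1 : HasFDerivAt V (fderiv ℝ V x) x := (hV.sm.differentiable (by simp) x).hasFDerivAt
  have h2 : HasFDerivAt (lam m V) (fderiv ℝ (lam m V) x) x :=
    ((lam_smooth hV).differentiable (by simp) x).hasFDerivAt
  have h3 := h1.sub (h2.smul (hasFDerivAt_id x))
  have h4 : fderiv ℝ (fun y => V y - lam m V y • y) x = _ := h3.fderiv
  rw [h4]
  have h5 := dlam_zero hm hV hU x k hx hk hkV
  have h6 := lam_eq hm hV hU x k hx hk hkV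
  simp [h5, h6]

/-! ### jM -/

/-- radial projection -/
noncomputable def jM_psiM {D : ℕ} (y : E D) : E D := ‖y‖⁻¹ • y

theorem jM_norm_fderiv_zero {D : ℕ} (z k : E D) (hz : z ≠ 0) (hk : inner ℝ k z = 0) :
    fderiv ℝ (fun x : E D => ‖x‖) z k = 0 := by
  have hd : DifferentiableAt ℝ (fun x : E D => ‖x‖) z := (differentiableAt_id).norm ℝ hz
  have h1 := (hd.hasFDerivAt).pow 2
  have h2 := (hasStrictFDerivAt_norm_sq z).hasFDerivAt
  have h3 := h1.unique h2
  have h4 := congrArg (fun F : E D →L[ℝ] ℝ => F k) h3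
  simp only [ContinuousLinearMap.smul_apply, innerSL_apply_apply, nsmul_eq_mul, smul_eq_mul] at h4
  rw [real_inner_comm, hk] at h4
  have hn : ‖z‖ ≠ 0 := norm_ne_zero_iff.mpr hz
  simpa [hn] using h4

theorem jM_psiM_deriv {D : ℕ} (z : E D) (hz : z ≠ 0) :
    ∃ A : E D →L[ℝ] E D, HasFDerivAt jM_psiM A z ∧ ∀ k, inner ℝ k z = 0 → A k = ‖z‖⁻¹ • k := by
  have hn : ‖z‖ ≠ 0 := norm_ne_zero_iff.mpr hz
  have hd : DifferentiableAt ℝ (fun x : E D => ‖x‖) z := (differentiableAt_id).norm ℝ hz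
  have hc := (hasDerivAt_inv hn).comp_hasFDerivAt z hd.hasFDerivAt
  have hs := hc.smul (hasFDerivAt_id z)
  refine ⟨_, hs, fun k hk => ?_⟩
  have h0 := jM_norm_fderiv_zero z k hz hk
  simp [h0]

theorem jM_det_zero_of_ker {D : ℕ} (F : E D →L[ℝ] E D) (k : E D) (hk : k ≠ 0) (h : F k = 0) :
    F.det = 0 := by
  by_contra hne
  have hu : IsUnit (LinearMap.det (F : E D →ₗ[ℝ] E D)) := isUnit_iff_ne_zero.mpr hne
  have h1 : (LinearEquiv.ofIsUnitDet (f := (F : E D →ₗ[ℝ] E D)) (v := Module.finBasis ℝ (E D))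
    (v' := Module.finBasis ℝ (E D)) (by rwa [LinearMap.det_toMatrix])) k = 0 := h
  exact hk ((LinearEquiv.map_eq_zero_iff _).mp h1)

/-- a smooth nonvanishing map of small rank misses a direction -/
theorem miss {D : ℕ} (hD : 1 ≤ D) (w : E D → E D) (hw : ContDiff ℝ ∞ w)
    (h0 : ∀ x, ‖x‖ = 1 → w x ≠ 0)
    (hr : ∀ x, ‖x‖ = 1 → ∃ k : E D, k ≠ 0 ∧ inner ℝ k x = 0 ∧ fderiv ℝ w x k = 0) :
    ∃ ν : E D, ‖ν‖ = 1 ∧ ∀ x, ‖x‖ = 1 → ∀ t : ℝ, 0 < t → w x ≠ t • ν := by
  by_contra hcon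
  push Not at hcon
  set g : E D → E D := fun z => ‖z‖ • jM_psiM (w (jM_psiM z)) with hg
  have hpsin : ∀ z : E D, z ≠ 0 → ‖jM_psiM z‖ = 1 := by
    intro z hz
    unfold jM_psiM
    rw [norm_smul, norm_inv, norm_norm, inv_mul_cancel₀ (norm_ne_zero_iff.mpr hz)]
  have hder : ∀ z ∈ {z : E D | z ≠ 0}, ∃ F : E D →L[ℝ] E D, HasFDerivWithinAt g F {z : E D | z ≠ 0} z
      ∧ F.det = 0 := by
    intro z hz
    have hz' : z ≠ 0 := hz
    have hn : ‖z‖ ≠ 0 := norm_ne_zero_iff.mpr hz'
    obtain ⟨A, hA, hAk⟩ := jM_psiM_deriv z hz'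
    obtain ⟨k, hk0, hkx, hkd⟩ := hr (jM_psiM z) (hpsin z hz')
    have hkz : inner ℝ k z = 0 := by
      unfold jM_psiM at hkx
      rw [inner_smul_right] at hkx
      rcases mul_eq_zero.mp hkx with h | h
      · exact absurd h (inv_ne_zero hn)
      · exact h
    have hw1 : HasFDerivAt w (fderiv ℝ w (jM_psiM z)) (jM_psiM z) :=
      ((hw.differentiable (by simp)) (jM_psiM z)).hasFDerivAt
    have hq : HasFDerivAt (fun z => w (jM_psiM z)) ((fderiv ℝ w (jM_psiM z)).comp A) z := hw1.comp z hA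
    obtain ⟨B, hB, _⟩ := jM_psiM_deriv (w (jM_psiM z)) (h0 _ (hpsin z hz'))
    have hq2 : HasFDerivAt (fun z => jM_psiM (w (jM_psiM z))) (B.comp ((fderiv ℝ w (jM_psiM z)).comp A)) z :=
      HasFDerivAt.comp (f := fun z => w (jM_psiM z)) z hB hq
    have hd : DifferentiableAt ℝ (fun x : E D => ‖x‖) z := (differentiableAt_id).norm ℝ hz'
    have hs := hd.hasFDerivAt.smul hq2
    refine ⟨_, hs.hasFDerivWithinAt, jM_det_zero_of_ker _ k hk0 ?_⟩
    have e1 := jM_norm_fderiv_zero z k hz' hkz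
    have e2 : B.comp ((fderiv ℝ w (jM_psiM z)).comp A) k = 0 := by
      simp only [ContinuousLinearMap.comp_apply]
      rw [hAk k hkz, map_smul, hkd, smul_zero, map_zero]
    simp only [ContinuousLinearMap.add_apply, ContinuousLinearMap.smul_apply,
      ContinuousLinearMap.smulRight_apply]
    rw [e1, e2, smul_zero, zero_smul, add_zero]
  choose! F hF1 hF2 using hder
  have hzero := MeasureTheory.addHaar_image_eq_zero_of_det_fderivWithin_eq_zero
    (MeasureTheory.volume : MeasureTheory.Measure (E D)) hF1 hF2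
  have hsub : {z : E D | z ≠ 0} ⊆ g '' {z : E D | z ≠ 0} := by
    intro y hy
    have hy' : y ≠ 0 := hy
    have hn : ‖y‖ ≠ 0 := norm_ne_zero_iff.mpr hy'
    have hν : ‖(‖y‖⁻¹ • y)‖ = 1 := hpsin y hy'
    obtain ⟨x, hx, t, ht, hwx⟩ := hcon (‖y‖⁻¹ • y) hν
    have hx0 : x ≠ 0 := by
      rintro rfl
      simp at hx
    refine ⟨‖y‖ • x, smul_ne_zero hn hx0, ?_⟩
    have e1 : ‖(‖y‖ • x)‖ = ‖y‖ := by rw [norm_smul, norm_norm, hx, mul_one]
    have e2 : jM_psiM (‖y‖ • x) = x := by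
      unfold jM_psiM
      rw [e1, smul_smul, inv_mul_cancel₀ hn, one_smul]
    have e3 : jM_psiM (w x) = ‖y‖⁻¹ • y := by
      unfold jM_psiM
      rw [hwx, norm_smul, hν, mul_one, Real.norm_eq_abs, abs_of_pos ht, smul_smul,
        inv_mul_cancel₀ ht.ne', one_smul]
    change ‖(‖y‖ • x)‖ • jM_psiM (w (jM_psiM (‖y‖ • x))) = y
    rw [e1, e2, e3, smul_smul, mul_inv_cancel₀ hn, one_smul]
  have hnull : MeasureTheory.volume {z : E D | z ≠ 0} = 0 :=
    MeasureTheory.measure_mono_null hsub hzero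
  have hne : {z : E D | z ≠ 0}.Nonempty := by
    refine ⟨EuclideanSpace.single ⟨0, hD⟩ (1 : ℝ), ?_⟩
    intro h
    have := congrArg (fun v : E D => v ⟨0, hD⟩) h
    simp at this
  have hpos := (isOpen_ne (x := (0 : E D))).measure_pos
    (MeasureTheory.volume : MeasureTheory.Measure (E D)) hne
  exact hpos.ne' hnull

/-! ### jN -/

/-- normalisation -/
noncomputable def jN_no_miss_om {D : ℕ} (z : E D) : E D := ‖z‖⁻¹ • z

/-- first cutoff -/
noncomputable def jN_no_miss_T {D : ℕ} (z : E D) : ℝ := Real.smoothTransition (8 * ‖z‖ ^ 2 - 1)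

/-- second cutoff -/
noncomputable def jN_no_miss_S {D : ℕ} (z : E D) : ℝ := Real.smoothTransition (4 * ‖z‖ ^ 2 - 3)

theorem jN_no_miss_om_norm {D : ℕ} (z : E D) (hz : z ≠ 0) : ‖jN_no_miss_om z‖ = 1 := by
  unfold jN_no_miss_om
  rw [norm_smul, norm_inv, norm_norm, inv_mul_cancel₀ (norm_ne_zero_iff.mpr hz)]

theorem jN_no_miss_om_sm {D : ℕ} (z : E D) (hz : z ≠ 0) : ContDiffAt ℝ 1 jN_no_miss_om z :=
  ((contDiffAt_norm ℝ hz).inv (norm_ne_zero_iff.mpr hz)).smul contDiffAt_id

theorem jN_no_miss_T_sm {D : ℕ} : ContDiff ℝ 1 (jN_no_miss_T (D := D)) := by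
  unfold jN_no_miss_T
  exact Real.smoothTransition.contDiff.comp
    ((contDiff_const.mul (contDiff_norm_sq ℝ)).sub contDiff_const)

theorem jN_no_miss_S_sm {D : ℕ} : ContDiff ℝ 1 (jN_no_miss_S (D := D)) := by
  unfold jN_no_miss_S
  exact Real.smoothTransition.contDiff.comp
    ((contDiff_const.mul (contDiff_norm_sq ℝ)).sub contDiff_const)

theorem no_miss {D : ℕ} (hD : 1 ≤ D) {V : E D → E D} (hV : UT V) (l : E D → ℝ)
    (hl : ContDiff ℝ ∞ l) (ν : E D) (hν : ‖ν‖ = 1)
    (hmiss : ∀ x, ‖x‖ = 1 → ∀ t : ℝ, 0 < t → V x - l x • x ≠ t • ν) : False := by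
  have hν0 : ν ≠ 0 := by
    intro h
    rw [h, norm_zero] at hν
    exact zero_ne_one hν
  set F : E D → E D := fun z => -(1 - jN_no_miss_T z) • ν + jN_no_miss_T z • (V (jN_no_miss_om z) +
    (jN_no_miss_S z - (1 - jN_no_miss_S z) * l (jN_no_miss_om z)) • jN_no_miss_om z) with hFdef
  have hinner : ∀ o : E D, ‖o‖ = 1 → ∀ c : ℝ, V o + c • o ≠ 0 := by
    intro o ho c h
    have h1 : inner ℝ (V o + c • o) (V o) = (1 : ℝ) := by
      rw [inner_add_left, inner_smul_left, hV.tan o ho, real_inner_self_eq_norm_sq, hV.unit o ho]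
      simp
    rw [h, inner_zero_left] at h1
    exact zero_ne_one h1
  refine no_outward hD F ?_ ?_ ?_
  · intro z _
    by_cases hz : z = 0
    · subst hz
      have hev : F =ᶠ[𝓝 (0 : E D)] fun _ => -ν := by
        have h1 : ∀ᶠ z : E D in 𝓝 0, ‖z‖ ^ 2 < 1 / 8 := by
          have hc : Continuous (fun z : E D => ‖z‖ ^ 2) := by fun_prop
          have := hc.continuousAt (x := (0 : E D))
          refine this.eventually_lt continuousAt_const ?_
          simp
        filter_upwards [h1] with z hz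
        have hT : jN_no_miss_T z = 0 := Real.smoothTransition.zero_of_nonpos (by linarith)
        simp only [hFdef, hT]
        simp
      exact (contDiffAt_const (c := -ν)).congr_of_eventuallyEq hev
    · have hT := (jN_no_miss_T_sm (D := D)).contDiffAt (x := z)
      have hS := (jN_no_miss_S_sm (D := D)).contDiffAt (x := z)
      have ho := jN_no_miss_om_sm z hz
      have hVo : ContDiffAt ℝ 1 (fun z => V (jN_no_miss_om z)) z :=
        ((hV.sm.of_le (by exact_mod_cast le_top)).contDiffAt).comp z ho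
      have hlo : ContDiffAt ℝ 1 (fun z => l (jN_no_miss_om z)) z :=
        ((hl.of_le (by exact_mod_cast le_top)).contDiffAt).comp z ho
      exact ((contDiffAt_const.sub hT).neg.smul contDiffAt_const).add
        (hT.smul (hVo.add ((hS.sub ((contDiffAt_const.sub hS).mul hlo)).smul ho)))
  · intro z _ h0
    have hT0 : 0 ≤ jN_no_miss_T z := Real.smoothTransition.nonneg _
    have hT1 : jN_no_miss_T z ≤ 1 := Real.smoothTransition.le_one _
    have h0' : -(1 - jN_no_miss_T z) • ν + jN_no_miss_T z • (V (jN_no_miss_om z) +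
      (jN_no_miss_S z - (1 - jN_no_miss_S z) * l (jN_no_miss_om z)) • jN_no_miss_om z) = 0 := h0
    rcases hT0.eq_or_lt with hT | hT
    · rw [← hT] at h0'
      apply hν0
      simpa using h0'
    · have hz : z ≠ 0 := by
        rintro rfl
        have : jN_no_miss_T (0 : E D) = 0 := Real.smoothTransition.zero_of_nonpos (by simp)
        rw [this] at hT
        exact lt_irrefl _ hT
      have ho := jN_no_miss_om_norm z hz
      rcases hT1.eq_or_lt with hT' | hT'
      · rw [hT'] at h0'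
        refine hinner (jN_no_miss_om z) ho (jN_no_miss_S z - (1 - jN_no_miss_S z) * l (jN_no_miss_om z)) ?_
        simpa using h0'
      · have hzs : 8 * ‖z‖ ^ 2 - 1 < 1 := by
          by_contra hge
          push Not at hge
          have : jN_no_miss_T z = 1 := Real.smoothTransition.one_of_one_le hge
          rw [this] at hT'
          exact lt_irrefl _ hT'
        have hS : jN_no_miss_S z = 0 := Real.smoothTransition.zero_of_nonpos (by linarith)
        rw [hS] at h0'
        refine hmiss (jN_no_miss_om z) ho ((1 - jN_no_miss_T z) / jN_no_miss_T z)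
          (div_pos (by linarith) hT) ?_
        have h1 : jN_no_miss_T z • (V (jN_no_miss_om z) - l (jN_no_miss_om z) • jN_no_miss_om z) =
            (1 - jN_no_miss_T z) • ν := by
          have h2 : jN_no_miss_T z • (V (jN_no_miss_om z) - l (jN_no_miss_om z) • jN_no_miss_om z) -
            (1 - jN_no_miss_T z) • ν = 0 := by
            rw [← h0']
            module
          exact sub_eq_zero.mp h2
        have h3 : V (jN_no_miss_om z) - l (jN_no_miss_om z) • jN_no_miss_om z =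
            (jN_no_miss_T z)⁻¹ • (jN_no_miss_T z • (V (jN_no_miss_om z) -
              l (jN_no_miss_om z) • jN_no_miss_om z)) := by
          rw [smul_smul, inv_mul_cancel₀ hT.ne', one_smul]
        rw [h3, h1, smul_smul]
        congr 1
        field_simp
  · intro x hx
    have ho : jN_no_miss_om x = x := by
      unfold jN_no_miss_om
      rw [hx, inv_one, one_smul]
    have hT : jN_no_miss_T x = 1 := Real.smoothTransition.one_of_one_le (by rw [hx]; norm_num)
    have hS : jN_no_miss_S x = 1 := Real.smoothTransition.one_of_one_le (by rw [hx]; norm_num)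
    have hF : F x = V x + x := by
      simp only [hFdef, ho, hT, hS]
      simp
    rw [hF, inner_add_right, hV.tan x hx, real_inner_self_eq_norm_sq, hx]
    norm_num
theorem no_umb {m : ℕ} (hm : 1 ≤ m) {V : E (2 * m + 2) → E (2 * m + 2)} (hV : UT V)
    (hU : Umb V) : False := by
  let w : E (2 * m + 2) → E (2 * m + 2) := fun y => V y - lam m V y • y
  have hw : ContDiff ℝ ∞ w := hV.sm.sub ((lam_smooth hV).smul contDiff_id)
  have h0 : ∀ x, ‖x‖ = 1 → w x ≠ 0 := by
    intro x hx h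
    have h1 : inner ℝ (w x) (V x) = (1 : ℝ) := by
      show inner ℝ (V x - lam m V x • x) (V x) = (1 : ℝ)
      rw [inner_sub_left, inner_smul_left, hV.tan x hx, real_inner_self_eq_norm_sq,
        hV.unit x hx]
      simp
    rw [h, inner_zero_left] at h1
    exact zero_ne_one h1
  have hr : ∀ x, ‖x‖ = 1 → ∃ k : E (2 * m + 2), k ≠ 0 ∧ inner ℝ k x = 0 ∧
      fderiv ℝ w x k = 0 := by
    intro x hx
    obtain ⟨k, hk0, hk1, hk2, -⟩ := exists_orth hm x (V x) 0
    exact ⟨k, hk0, hk1, dw_zero hm hV hU x k hx hk1 hk2⟩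
  obtain ⟨ν, hν, hmiss⟩ := miss (by omega) w hw h0 hr
  exact no_miss (by omega) hV (lam m V) (lam_smooth hV) ν hν hmiss

/-- block R: no smooth unit tangent field on the sphere of dimension `2 m + 1 ≥ 3` is umbilic -/
theorem no_umbilic {m : ℕ} (hm : 1 ≤ m)
    {V : Pool.Agent.Helper82.OS.E (2 * m + 2) → Pool.Agent.Helper82.OS.E (2 * m + 2)}
    (hV : Pool.Agent.Helper82.OS.UT V)
    (h : ∀ x, ‖x‖ = 1 → ∃ lam : ℝ, ∀ k : Pool.Agent.Helper82.OS.E (2 * m + 2),
      inner ℝ k x = 0 → inner ℝ k (V x) = 0 → fderiv ℝ V x k = lam • k) : False :=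
  no_umb hm ⟨hV.sm, hV.tan, hV.unit⟩ h

end Pool.Agent.Helper734.UM
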